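import Pool.Agent.Helper7.LQ.Defs

namespace Pool.Agent.Helper18.LQ

open Pool.Agent.Helper7.LQ

/-- The positions of `x` in `W`, counted from `i`. -/
def posFrom {α : Type} [DecidableEq α] : ℕ → List α → α → List ℕ
  | _, [], _ => []
  | i, w :: W, x => if w = x then i :: posFrom (i + 1) W x else posFrom (i + 1) W x

/-- The merge pattern of two lists. -/
def mergeWord : List ℕ → List ℕ → List Bool
  | [], l => List.replicate l.length false
  | a :: l, [] => List.replicate (a :: l).length true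
  | a :: l, b :: l' => if a < b then true :: mergeWord l (b :: l') else
      false :: mergeWord (a :: l) l'
  termination_by l l' => l.length + l'.length

theorem mergeWord_nil_left (l : List ℕ) : mergeWord [] l = List.replicate l.length false := by
  rw [mergeWord]

theorem mergeWord_nil_right (l : List ℕ) : mergeWord l [] = List.replicate l.length true := by
  cases l with
  | nil => rw [mergeWord]; rfl
  | cons a l => rw [mergeWord]

theorem mergeWord_cons (a : ℕ) (l : List ℕ) (b : ℕ) (l' : List ℕ) :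
    mergeWord (a :: l) (b :: l') = if a < b then true :: mergeWord l (b :: l') else
      false :: mergeWord (a :: l) l' := by
  rw [mergeWord]

theorem mergeWord_lt {a : ℕ} {l l' : List ℕ} (h : ∀ b ∈ l', a < b) :
    mergeWord (a :: l) l' = true :: mergeWord l l' := by
  cases l' with
  | nil => rw [mergeWord_nil_right, mergeWord_nil_right]; rfl
  | cons b l' => rw [mergeWord_cons, if_pos (h b List.mem_cons_self)]

theorem mergeWord_gt {b : ℕ} {l l' : List ℕ} (h : ∀ a ∈ l, b < a) :
    mergeWord l (b :: l') = false :: mergeWord l l' := by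
  cases l with
  | nil => rw [mergeWord_nil_left, mergeWord_nil_left]; rfl
  | cons a l =>
    have := h a List.mem_cons_self
    rw [mergeWord_cons, if_neg (by omega)]

theorem posFrom_ge {α : Type} [DecidableEq α] (x : α) : ∀ (W : List α) (i : ℕ),
    ∀ a ∈ posFrom i W x, i ≤ a := by
  intro W
  induction W with
  | nil => intro i a ha; simp [posFrom] at ha
  | cons w W ih =>
    intro i a ha
    unfold posFrom at ha
    split_ifs at ha with h
    · rcases List.mem_cons.1 ha with rfl | ha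
      · exact le_rfl
      · have := ih (i + 1) a ha
        omega
    · have := ih (i + 1) a ha
      omega

theorem posFrom_length {α : Type} [DecidableEq α] (x : α) : ∀ (W : List α) (i : ℕ),
    (posFrom i W x).length = W.count x := by
  intro W
  induction W with
  | nil => intro i; rfl
  | cons w W ih =>
    intro i
    unfold posFrom
    rw [List.count_cons]
    by_cases h : w = x
    · subst h
      simp [ih (i + 1)]
    · simp [ih (i + 1), h]

theorem posFrom_ne {α : Type} [DecidableEq α] {x y : α} (hxy : x ≠ y) : ∀ (W : List α) (i : ℕ),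
    ∀ a ∈ posFrom i W x, ∀ b ∈ posFrom i W y, a ≠ b := by
  intro W
  induction W with
  | nil => intro i a ha; simp [posFrom] at ha
  | cons w W ih =>
    intro i a ha b hb
    unfold posFrom at ha hb
    split_ifs at ha with h
    · subst h
      rw [if_neg hxy] at hb
      have hb' := posFrom_ge y W (i + 1) b hb
      rcases List.mem_cons.1 ha with rfl | ha
      · omega
      · exact ih (i + 1) a ha b hb
    · have ha' := posFrom_ge x W (i + 1) a ha
      split_ifs at hb with h'
      · rcases List.mem_cons.1 hb with rfl | hb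
        · omega
        · exact ih (i + 1) a ha b hb
      · exact ih (i + 1) a ha b hb

theorem merge_pos {α : Type} [DecidableEq α] {x y : α} (hxy : x ≠ y) : ∀ (W : List α) (i : ℕ),
    mergeWord (posFrom i W x) (posFrom i W y) = pat W x y := by
  intro W
  induction W with
  | nil => intro i; rw [posFrom, posFrom, mergeWord_nil_left]; rfl
  | cons w W ih =>
    intro i
    unfold posFrom
    by_cases hx : w = x
    · subst hx
      rw [if_pos rfl, if_neg hxy, mergeWord_lt (fun b hb => posFrom_ge y W (i + 1) b hb),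
        ih (i + 1)]
      simp [pat]
    · by_cases hy : w = y
      · subst hy
        rw [if_pos rfl, if_neg hx, mergeWord_gt (fun b hb => posFrom_ge x W (i + 1) b hb),
          ih (i + 1)]
        simp [pat, hx]
      · rw [if_neg hx, if_neg hy, ih (i + 1)]
        simp [pat, hx, hy]

/-- Halving two sets. -/
theorem halving {α : Type} (f₀ f₁ : α → ℕ) (Y₀ Y₁ : Finset α)
    (hne : ∀ x ∈ Y₀, ∀ y ∈ Y₁, f₀ x ≠ f₁ y) :
    ∃ Z₀ Z₁ : Finset α, Z₀ ⊆ Y₀ ∧ Z₁ ⊆ Y₁ ∧ Y₀.card ≤ 2 * Z₀.card ∧ Y₁.card ≤ 2 * Z₁.card ∧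
      ((∀ x ∈ Z₀, ∀ y ∈ Z₁, f₀ x < f₁ y) ∨ (∀ x ∈ Z₀, ∀ y ∈ Z₁, f₁ y < f₀ x)) := by
  classical
  have hex : ∃ t, Y₀.card ≤ 2 * (Y₀.filter fun x => f₀ x ≤ t).card := by
    refine ⟨Y₀.sup f₀, ?_⟩
    rw [Finset.filter_true_of_mem (fun x hx => Finset.le_sup hx)]
    omega
  let t := Nat.find hex
  have ht : Y₀.card ≤ 2 * (Y₀.filter fun x => f₀ x ≤ t).card := Nat.find_spec hex
  have ht' : Y₀.card ≤ 2 * (Y₀.filter fun x => t ≤ f₀ x).card := by
    rcases Nat.eq_zero_or_pos t with h0 | h0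
    · rw [h0, Finset.filter_true_of_mem (fun x _ => Nat.zero_le _)]
      omega
    · have hmin := Nat.find_min hex (m := t - 1) (by
        show t - 1 < t
        omega)
      have hsum := Finset.card_filter_add_card_filter_not (s := Y₀) (fun x => t ≤ f₀ x)
      have heq : (Y₀.filter fun x => ¬ t ≤ f₀ x) = Y₀.filter fun x => f₀ x ≤ t - 1 := by
        refine Finset.filter_congr fun x _ => ?_
        constructor <;> intro h <;> omega
      rw [heq] at hsum
      omega
  by_cases h1 : Y₁.card ≤ 2 * (Y₁.filter fun y => t < f₁ y).card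
  · refine ⟨Y₀.filter fun x => f₀ x ≤ t, Y₁.filter fun y => t < f₁ y, Finset.filter_subset _ _,
      Finset.filter_subset _ _, ht, h1, Or.inl ?_⟩
    intro x hx y hy
    rw [Finset.mem_filter] at hx hy
    omega
  · refine ⟨Y₀.filter fun x => t ≤ f₀ x, Y₁.filter fun y => f₁ y ≤ t, Finset.filter_subset _ _,
      Finset.filter_subset _ _, ht', ?_, Or.inr ?_⟩
    · have hsum := Finset.card_filter_add_card_filter_not (s := Y₁) (fun x => t < f₁ x)
      have heq : (Y₁.filter fun x => ¬ t < f₁ x) = Y₁.filter fun x => f₁ x ≤ t := by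
        refine Finset.filter_congr fun x _ => ?_
        constructor <;> intro h <;> omega
      rw [heq] at hsum
      omega
    · intro x hx y hy
      rw [Finset.mem_filter] at hx hy
      have := hne x hx.1 y hy.1
      omega

theorem merge_sep {α : Type} : ∀ (n i j : ℕ) (g₀ g₁ : α → List ℕ) (Y₀ Y₁ : Finset α),
    i + j = n → (∀ x ∈ Y₀, (g₀ x).length = i) → (∀ y ∈ Y₁, (g₁ y).length = j) →
    (∀ x ∈ Y₀, ∀ y ∈ Y₁, ∀ a ∈ g₀ x, ∀ b ∈ g₁ y, a ≠ b) →
    ∃ (Z₀ Z₁ : Finset α) (ω : List Bool), Z₀ ⊆ Y₀ ∧ Z₁ ⊆ Y₁ ∧ Y₀.card ≤ 2 ^ n * Z₀.card ∧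
      Y₁.card ≤ 2 ^ n * Z₁.card ∧ ω.length = n ∧
      ∀ x ∈ Z₀, ∀ y ∈ Z₁, mergeWord (g₀ x) (g₁ y) = ω := by
  intro n
  induction n with
  | zero =>
    intro i j g₀ g₁ Y₀ Y₁ hij h0 h1 _
    refine ⟨Y₀, Y₁, [], subset_rfl, subset_rfl, by simp, by simp, rfl, ?_⟩
    intro x hx y hy
    have e0 : g₀ x = [] := List.eq_nil_of_length_eq_zero (by rw [h0 x hx]; omega)
    have e1 : g₁ y = [] := List.eq_nil_of_length_eq_zero (by rw [h1 y hy]; omega)
    rw [e0, e1, mergeWord_nil_left]
    rfl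
  | succ n ih =>
    intro i j g₀ g₁ Y₀ Y₁ hij h0 h1 hne
    have hpow : 1 ≤ 2 ^ (n + 1) := Nat.one_le_two_pow
    have htriv : ∀ Y : Finset α, Y.card ≤ 2 ^ (n + 1) * Y.card := fun Y =>
      Nat.le_mul_of_pos_left _ hpow
    rcases Nat.eq_zero_or_pos i with hi | hi
    · refine ⟨Y₀, Y₁, List.replicate j false, subset_rfl, subset_rfl, htriv _, htriv _, ?_, ?_⟩
      · rw [List.length_replicate]
        omega
      · intro x hx y hy
        have e0 : g₀ x = [] := List.eq_nil_of_length_eq_zero (by rw [h0 x hx]; omega)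
        rw [e0, mergeWord_nil_left, h1 y hy]
    rcases Nat.eq_zero_or_pos j with hj | hj
    · refine ⟨Y₀, Y₁, List.replicate i true, subset_rfl, subset_rfl, htriv _, htriv _, ?_, ?_⟩
      · rw [List.length_replicate]
        omega
      · intro x hx y hy
        have e1 : g₁ y = [] := List.eq_nil_of_length_eq_zero (by rw [h1 y hy]; omega)
        rw [e1, mergeWord_nil_right, h0 x hx]
    have c0 : ∀ x ∈ Y₀, g₀ x = (g₀ x).headI :: (g₀ x).tail := by
      intro x hx
      cases hg : g₀ x with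
      | nil =>
        have := h0 x hx
        rw [hg] at this
        simp at this
        omega
      | cons a l => rfl
    have c1 : ∀ y ∈ Y₁, g₁ y = (g₁ y).headI :: (g₁ y).tail := by
      intro x hx
      cases hg : g₁ x with
      | nil =>
        have := h1 x hx
        rw [hg] at this
        simp at this
        omega
      | cons a l => rfl
    have hh0 : ∀ x ∈ Y₀, (g₀ x).headI ∈ g₀ x := by
      intro x hx
      rw [c0 x hx]
      exact List.mem_cons_self
    have hh1 : ∀ x ∈ Y₁, (g₁ x).headI ∈ g₁ x := by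
      intro x hx
      rw [c1 x hx]
      exact List.mem_cons_self
    obtain ⟨Z₀, Z₁, hZ0, hZ1, k0, k1, hlt⟩ := halving (fun x => (g₀ x).headI)
      (fun y => (g₁ y).headI) Y₀ Y₁ (fun x hx y hy => hne x hx y hy _ (hh0 x hx) _ (hh1 y hy))
    rcases hlt with hlt | hlt
    · obtain ⟨Z₀', Z₁', ω, hZ0', hZ1', k0', k1', hω, hm⟩ := ih (i - 1) j (fun x => (g₀ x).tail) g₁
        Z₀ Z₁ (by omega) (fun x hx => by rw [List.length_tail, h0 x (hZ0 hx)])
        (fun y hy => h1 y (hZ1 hy))
        (fun x hx y hy a ha b hb => hne x (hZ0 hx) y (hZ1 hy) a (List.mem_of_mem_tail ha) b hb)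
      refine ⟨Z₀', Z₁', true :: ω, hZ0'.trans hZ0, hZ1'.trans hZ1, ?_, ?_, by simp [hω], ?_⟩
      · rw [pow_succ]
        nlinarith
      · rw [pow_succ]
        nlinarith
      · intro x hx y hy
        have hx' := hZ0' hx
        have hy' := hZ1' hy
        rw [← hm x hx y hy, c0 x (hZ0 hx'), c1 y (hZ1 hy'), mergeWord_cons,
          if_pos (hlt x hx' y hy')]
        rfl
    · obtain ⟨Z₀', Z₁', ω, hZ0', hZ1', k0', k1', hω, hm⟩ := ih i (j - 1) g₀ (fun y => (g₁ y).tail)
        Z₀ Z₁ (by omega) (fun x hx => h0 x (hZ0 hx))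
        (fun y hy => by rw [List.length_tail, h1 y (hZ1 hy)])
        (fun x hx y hy a ha b hb => hne x (hZ0 hx) y (hZ1 hy) a ha b (List.mem_of_mem_tail hb))
      refine ⟨Z₀', Z₁', false :: ω, hZ0'.trans hZ0, hZ1'.trans hZ1, ?_, ?_, by simp [hω], ?_⟩
      · rw [pow_succ]
        nlinarith
      · rw [pow_succ]
        nlinarith
      · intro x hx y hy
        have hx' := hZ0' hx
        have hy' := hZ1' hy
        have := hlt x hx' y hy'
        rw [← hm x hx y hy, c0 x (hZ0 hx'), c1 y (hZ1 hy'), mergeWord_cons,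
          if_neg (by omega)]
        rfl

theorem separation {α : Type} [DecidableEq α] (W : List α) (ρ : ℕ) (X₀ X₁ : Finset α)
    (hd : Disjoint X₀ X₁) (h0 : ∀ x ∈ X₀, W.count x = ρ) (h1 : ∀ x ∈ X₁, W.count x = ρ) :
    ∃ (Y₀ Y₁ : Finset α) (ω : List Bool), Y₀ ⊆ X₀ ∧ Y₁ ⊆ X₁ ∧ X₀.card ≤ 4 ^ ρ * Y₀.card ∧
      X₁.card ≤ 4 ^ ρ * Y₁.card ∧ ω.length = 2 * ρ ∧ ∀ x ∈ Y₀, ∀ y ∈ Y₁, pat W x y = ω := by
  have hxy : ∀ x ∈ X₀, ∀ y ∈ X₁, x ≠ y := fun x hx y hy h =>
    (Finset.disjoint_left.1 hd) hx (h ▸ hy)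
  obtain ⟨Z₀, Z₁, ω, a0, a1, b0, b1, c, d⟩ := merge_sep (2 * ρ) ρ ρ (posFrom 0 W) (posFrom 0 W)
    X₀ X₁ (by omega) (fun x hx => by rw [posFrom_length, h0 x hx])
    (fun x hx => by rw [posFrom_length, h1 x hx])
    (fun x hx y hy => posFrom_ne (hxy x hx y hy) W 0)
  have h4 : 2 ^ (2 * ρ) = 4 ^ ρ := by
    rw [pow_mul]
    norm_num
  rw [h4] at b0 b1
  refine ⟨Z₀, Z₁, ω, a0, a1, b0, b1, c, fun x hx y hy => ?_⟩
  rw [← merge_pos (hxy x (a0 hx) y (a1 hy)) W 0]
  exact d x hx y hy

end Pool.Agent.Helper18.LQ
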